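import Pool.Agent.Run7.h973.RV.Fam

/-!
Project RV of helper745, piece SIMPLE: the limit is simple.
-/

set_option autoImplicit false
set_option linter.unusedSectionVars false

noncomputable section

namespace Run7.h973.RV

open Filter Topology Matrix Pool.Agent.H188R3 Pool.Agent.Helper133.BT Pool.Agent.Helper133.BU
open Run7.h745 Run7.h745.RV Run7.h973.AH

lemma ep_at {n : ℕ} (p : I n) (e : E) : (ep p).at e = MA.unit p p := rfl

lemma one_eq_sum (n : ℕ) : ∑ b : Bool, ∑ a : I n, zc n b * ep a = 1 := by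
  apply A.ext; intro e
  rw [at_sum, Finset.sum_eq_single e.1]
  · rw [at_sum]
    have h1 : ∀ a ∈ (Finset.univ : Finset (I n)), (zc n e.1 * ep a).at e = MA.unit a a := by
      intro a _
      rw [A.at_mul, zc_at, if_pos rfl, one_mul, ep_at]
    rw [Finset.sum_congr rfl h1, MA.sum_unit]
    rfl
  · intro b _ hb
    rw [at_sum]
    refine Finset.sum_eq_zero fun a _ => ?_
    rw [A.at_mul, zc_at, if_neg (fun h => hb h.symm), zero_mul]
  · intro h; exact absurd (Finset.mem_univ _) h

/-- an element with a constant nonzero entry, in both components, generates everything -/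
theorem full_of_entry {n : ℕ} (Y : A n)
    (hY : ∀ b : Bool, ∃ (p q : I n) (α : ℂ), lab n p = lab n q ∧ α ≠ 0 ∧ ∀ ω, (Y.at (b, ω)).en p q = α)
    (J : TwoSidedIdeal (A n)) (hJ : Y ∈ J) : J = ⊤ := by
  rw [← TwoSidedIdeal.one_mem_iff, ← one_eq_sum n]
  refine TwoSidedIdeal.finsetSum_mem _ _ _ fun b _ => TwoSidedIdeal.finsetSum_mem _ _ _ fun a _ => ?_
  obtain ⟨p, q, α, hpq, hα, h⟩ := hY b
  -- the row `p`
  have hz1 : zc n b * ep p ∈ J := by
    have hlq : ∀ c d, lab n c ≠ lab n d → (MA.unit q p : MA (I n) ℂ).en c d = 0 := by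
      intro c d hcd
      rw [MA.en_unit, if_neg]
      rintro ⟨rfl, rfl⟩
      exact hcd hpq.symm
    have h1 : zc n b * ep p = algebraMap ℂ (A n) α⁻¹ * (zc n b * ep p * Y * cs (MA.unit q p) hlq) := by
      rw [← Algebra.smul_def]
      apply A.ext; intro e
      simp only [A.at_smul, A.at_mul, zc_at, cs_at, ep_at]
      by_cases he : e.1 = b
      · rw [if_pos he, one_mul, unit_mul_mul]
        have h2 : (Y.at e).en p q = α := by
          have h3 := h e.2
          rw [← he] at h3
          exact h3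
        rw [h2, smul_smul, inv_mul_cancel₀ hα, one_smul]
      · rw [if_neg he, zero_mul, zero_mul, zero_mul, smul_zero]
    rw [h1]
    exact J.mul_mem_left _ _ (J.mul_mem_right _ _ (J.mul_mem_left _ _ hJ))
  -- the first row
  have hz2 : zc n b * e0 n ∈ J := by
    obtain ⟨k, v, V, hV, hv⟩ := exists_fam n p
    have h1 : zc n b * e0 n = ∑ c, star (V c) * (zc n b * ep p) * V c := by
      apply A.ext; intro e
      rw [at_sum, A.at_mul, zc_at]
      have h2 : ∀ c ∈ (Finset.univ : Finset (Fin k)), (star (V c) * (zc n b * ep p) * V c).at e =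
          ((v c e ^ 2 : ℝ) : ℂ) • (if e.1 = b then MA.unit (r0 n) (r0 n) else 0) := by
        intro c _
        rw [A.at_mul, A.at_mul, A.at_mul, A.at_star, hV, zc_at, ep_at, star_smul, MA.star_unit]
        by_cases he : e.1 = b
        · rw [if_pos he, if_pos he, one_mul, smul_mul_assoc, smul_mul_smul_comm, MA.unit_mul, if_pos rfl,
            MA.unit_mul, if_pos rfl, Complex.star_def, Complex.conj_ofReal, ← Complex.ofReal_mul, sq]
        · rw [if_neg he, if_neg he, zero_mul, mul_zero, zero_mul, smul_zero]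
      rw [Finset.sum_congr rfl h2, ← Finset.sum_smul, ← Complex.ofReal_sum, hv, Complex.ofReal_one, one_smul]
      by_cases he : e.1 = b
      · rw [if_pos he, if_pos he, one_mul]
        rfl
      · rw [if_neg he, if_neg he, zero_mul]
    rw [h1]
    exact TwoSidedIdeal.finsetSum_mem _ _ _ fun c _ => J.mul_mem_right _ _ (J.mul_mem_left _ _ hz1)
  -- the row `a`
  obtain ⟨k, v, V, hV, hv⟩ := exists_fam n a
  have h1 : zc n b * ep a = ∑ c, V c * (zc n b * e0 n) * star (V c) := by
    apply A.ext; intro e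
    rw [at_sum, A.at_mul, zc_at]
    have h2 : ∀ c ∈ (Finset.univ : Finset (Fin k)), (V c * (zc n b * e0 n) * star (V c)).at e =
        ((v c e ^ 2 : ℝ) : ℂ) • (if e.1 = b then MA.unit a a else 0) := by
      intro c _
      have h3 : (e0 n).at e = MA.unit (r0 n) (r0 n) := rfl
      rw [A.at_mul, A.at_mul, A.at_mul, A.at_star, hV, zc_at, h3, star_smul, MA.star_unit]
      by_cases he : e.1 = b
      · rw [if_pos he, if_pos he, one_mul, smul_mul_assoc, smul_mul_smul_comm, MA.unit_mul, if_pos rfl,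
          MA.unit_mul, if_pos rfl, Complex.star_def, Complex.conj_ofReal, ← Complex.ofReal_mul, sq]
      · rw [if_neg he, if_neg he, zero_mul, mul_zero, zero_mul, smul_zero]
    rw [Finset.sum_congr rfl h2, ← Finset.sum_smul, ← Complex.ofReal_sum, hv, Complex.ofReal_one, one_smul]
    by_cases he : e.1 = b
    · rw [if_pos he, if_pos he, one_mul, ep_at]
    · rw [if_neg he, if_neg he, zero_mul]
  rw [h1]
  exact TwoSidedIdeal.finsetSum_mem _ _ _ fun c _ => J.mul_mem_right _ _ (J.mul_mem_left _ _ hz2)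

lemma trans_at_ne {n : ℕ} (x : A n) (e : E) (hx : x.at e ≠ 0) {m : ℕ} (h : n ≤ m) :
    (trans φ n m x).at e ≠ 0 := by
  induction m, h using Nat.le_induction with
  | base => rw [trans_self]; exact hx
  | succ m hm ih =>
    rw [trans_succ φ hm, φ_at]
    obtain ⟨p, q, hpq⟩ := exists_en_ne ih
    intro h1
    apply hpq
    rw [← dg_old _ ((trans φ n m x).at (!e.1, xs m)), h1, MA.en_zero]

/-- **SIMPLE** -/
theorem t_SIMPLE : S_SIMPLE := by
  intro L _ j h
  have : Nontrivial L := (h.inj 0).nontrivial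
  refine h.simple fun n x hx => ?_
  obtain ⟨e, he⟩ : ∃ e, x.at e ≠ 0 := by
    by_contra hc
    push Not at hc
    exact hx (A.ext hc)
  obtain ⟨b, ω₀⟩ := e
  have hU : IsOpen {ω | x.at (b, ω) ≠ 0} :=
    isOpen_ne_fun (x.at_continuous.comp (Continuous.prodMk_right b)) continuous_const
  obtain ⟨i, hi⟩ := (TopologicalSpace.denseRange_denseSeq Ω).exists_mem_open hU ⟨ω₀, he⟩
  obtain ⟨m, hm⟩ : ∃ m, m = Nat.pair i n := ⟨_, rfl⟩
  have hnm : n ≤ m := hm ▸ Nat.right_le_pair i n
  have hxm : xs m = TopologicalSpace.denseSeq Ω i := by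
    unfold xs
    rw [hm, Nat.unpair_pair]
  have h1 := trans_at_ne x (b, xs m) (by rw [hxm]; exact hi) hnm
  obtain ⟨p, q, hpq⟩ := exists_en_ne h1
  obtain ⟨y, hy⟩ : ∃ y, y = trans φ n m x := ⟨_, rfl⟩
  rw [← hy] at hpq
  refine ⟨m + 1 + 1, by omega, fun J hJ => ?_⟩
  rw [trans_succ φ (by omega), trans_succ φ hnm, ← hy] at hJ
  refine full_of_entry _ (fun b' => ?_) J hJ
  by_cases hb : b' = b
  · refine ⟨newR (newR p), newR (newR q), (y.at (b, xs m)).en p q, by rw [lab_new, lab_new], hpq, fun ω => ?_⟩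
    rw [φ_at, dg_new, φ_at, dg_new, hb, Bool.not_not]
  · have hb' : b' = !b := by
      cases b <;> cases b' <;> simp_all
    refine ⟨oldR (newR p), oldR (newR q), (y.at (b, xs m)).en p q,
      by rw [lab_old, lab_old, lab_new, lab_new], hpq, fun ω => ?_⟩
    rw [φ_at, dg_old, φ_at, dg_new, hb', Bool.not_not]

end Run7.h973.RV
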