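import Pool.Agent.Run7.h973.RV.Fam

/-!
Project RV of helper745, piece TRP: traces of level `n` factor through the centre-valued trace.
-/

set_option autoImplicit false
set_option linter.unusedSectionVars false

noncomputable section

namespace Run7.h973.RV

open Filter Topology Matrix Pool.Agent.H188R3 Pool.Agent.Helper133.BT Pool.Agent.Helper133.BU
open Run7.h745 Run7.h745.RV Run7.h973.AH

/-- the abstract computation -/
theorem tr_aux {B : Type} [CStarAlgebra B] (σ : TracialState B) {ι : Type} [Fintype ι] (u : ι → B)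
    (h1 : 1 = ∑ p, u p) (hu : ∀ p, u p * u p = u p) (k : ι → ℕ) (V : ∀ p, Fin (k p) → B)
    (hV : ∀ p, ∑ c, V p c * star (V p c) = u p) (b : B) :
    σ.val b = σ.val (∑ p, ∑ c, star (V p c) * (u p * b * u p) * V p c) := by
  have h2 : σ.val b = ∑ p, σ.val (u p * b * u p) := by
    calc σ.val b = σ.val ((∑ p, u p) * b) := by rw [← h1, one_mul]
      _ = ∑ p, σ.val (u p * b) := by rw [Finset.sum_mul, map_sum]
      _ = _ := by
        refine Finset.sum_congr rfl fun p _ => ?_
        rw [σ.comm (u p * b) (u p), ← mul_assoc, hu]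
  rw [h2, map_sum]
  refine Finset.sum_congr rfl fun p _ => ?_
  rw [map_sum]
  have h3 : ∀ c ∈ (Finset.univ : Finset (Fin (k p))), σ.val (star (V p c) * (u p * b * u p) * V p c) =
      σ.val ((u p * b * u p) * (V p c * star (V p c))) := by
    intro c _
    rw [σ.comm, ← mul_assoc, σ.comm]
  rw [Finset.sum_congr rfl h3, ← map_sum, ← Finset.mul_sum, hV, mul_assoc (u p * b) (u p) (u p), hu]

/-- a trace only sees the sum of the diagonal entries -/
theorem trace_diag {n : ℕ} (σ : TracialState (A n)) (b : A n) :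
    ∃ R : A n, (∀ e, R.at e = (∑ p, (b.at e).en p p) • MA.unit (r0 n) (r0 n)) ∧ σ.val b = σ.val R := by
  choose k v V hV hv using exists_fam n
  refine ⟨∑ p, ∑ c, star (V p c) * (ep p * b * ep p) * V p c, fun e => ?_, ?_⟩
  · rw [at_sum, Finset.sum_smul]
    refine Finset.sum_congr rfl fun p _ => ?_
    rw [at_sum]
    have h2 : ∀ c ∈ (Finset.univ : Finset (Fin (k p))), (star (V p c) * (ep p * b * ep p) * V p c).at e =
        ((v p c e ^ 2 : ℝ) : ℂ) • ((b.at e).en p p • MA.unit (r0 n) (r0 n)) := by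
      intro c _
      have h3 : (ep p).at e = MA.unit p p := rfl
      rw [A.at_mul, A.at_mul, A.at_mul, A.at_mul, A.at_star, hV, h3, star_smul, MA.star_unit,
        unit_mul_mul, smul_mul_smul_comm, MA.unit_mul, if_pos rfl, smul_mul_smul_comm, MA.unit_mul,
        if_pos rfl, smul_smul, Complex.star_def, Complex.conj_ofReal]
      congr 1
      push_cast
      ring
    rw [Finset.sum_congr rfl h2, ← Finset.sum_smul, ← Complex.ofReal_sum, hv, Complex.ofReal_one, one_smul]
  · have h1 : (1 : A n) = ∑ p, ep p := by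
      apply A.ext; intro e
      rw [at_sum]
      exact MA.sum_unit.symm
    have hepp : ∀ p : I n, (ep p : A n) * ep p = ep p := by
      intro p
      apply A.ext; intro e
      show MA.unit p p * MA.unit p p = MA.unit p p
      rw [MA.unit_mul, if_pos rfl]
    refine tr_aux σ ep h1 hepp k V (fun p => ?_) b
    apply A.ext; intro e
    rw [at_sum]
    have h5 : ∀ c ∈ (Finset.univ : Finset (Fin (k p))), (V p c * star (V p c)).at e =
        ((v p c e ^ 2 : ℝ) : ℂ) • MA.unit p p := by
      intro c _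
      rw [A.at_mul, A.at_star, hV, star_smul, MA.star_unit, smul_mul_smul_comm, MA.unit_mul, if_pos rfl,
        Complex.star_def, Complex.conj_ofReal, ← Complex.ofReal_mul, sq]
    rw [Finset.sum_congr rfl h5, ← Finset.sum_smul, ← Complex.ofReal_sum, hv, Complex.ofReal_one, one_smul]
    rfl

/-- **TRP** -/
theorem t_TRP : S_TRP := by
  intro n σ a c ε hε
  have htn : Continuous fun e => tn a e := by
    unfold tn AH.ntr
    exact (continuous_finsetSum _ fun i _ => (continuous_en i i).comp a.at_continuous).div_const _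
  obtain ⟨T, hT⟩ : ∃ T : A n, ∀ e, T.at e = tn a e • 1 := by
    refine ⟨A.mk ⟨fun e => tn a e • (1 : MA (I n) ℂ), htn.smul continuous_const⟩ (fun h ω ω' hω => ?_)
      (fun h i ω p q => ?_), fun e => rfl⟩
    · show tn a (h, ω) • (1 : MA (I n) ℂ) = tn a (h, ω') • (1 : MA (I n) ℂ)
      unfold tn
      rw [a.dep h hω]
    · show (tn a (h, fl i ω) • (1 : MA (I n) ℂ)).en p q =
        Run7.h745.RV.sg i p * Run7.h745.RV.sg i q * (tn a (h, ω) • (1 : MA (I n) ℂ)).en p q
      have h1 : tn a (h, fl i ω) = tn a (h, ω) := by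
        unfold tn AH.ntr
        congr 1
        refine Finset.sum_congr rfl fun k _ => ?_
        rw [a.par, sg_mul, one_mul]
      rw [h1, MA.en_smul, MA.en_one]
      by_cases hpq : p = q
      · rw [if_pos hpq, hpq, sg_mul, one_mul]
      · rw [if_neg hpq, smul_zero, mul_zero]
  have h1 : σ.val a = σ.val T := by
    obtain ⟨R, hR, hR2⟩ := trace_diag σ a
    obtain ⟨R', hR', hR2'⟩ := trace_diag σ T
    rw [hR2, hR2']
    congr 1
    apply A.ext; intro e
    rw [hR, hR']
    congr 1
    have h2 : ∀ p ∈ (Finset.univ : Finset (I n)), (T.at e).en p p = tn a e := by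
      intro p _
      rw [hT, MA.en_smul, MA.en_one, if_pos rfl, smul_eq_mul, mul_one]
    rw [Finset.sum_congr rfl h2, Finset.sum_const, Finset.card_univ, nsmul_eq_mul]
    unfold tn AH.ntr
    rw [mul_div_cancel₀]
    have : (0 : ℕ) < Fintype.card (I n) := Fintype.card_pos
    exact_mod_cast this.ne'
  have h2 : σ.val a - c = σ.val (T - c • 1) := by
    rw [map_sub, map_smul, σ.map_one, h1, smul_eq_mul, mul_one]
  rw [h2]
  have hε0 : 0 ≤ ε := (norm_nonneg _).trans (hε (true, Classical.arbitrary Ω))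
  refine (Run7.h745.AH.ts_norm σ _).trans ?_
  have h3 : ∀ f : A n, (∀ e, ‖f.at e‖ ≤ ε) → ‖f‖ ≤ ε := fun f hf =>
    (ContinuousMap.norm_le (show S n from f).1 hε0).2 hf
  refine h3 _ fun e => ?_
  rw [A.at_sub, A.at_smul, A.at_one, hT, ← sub_smul, norm_smul]
  calc ‖tn a e - c‖ * ‖(1 : MA (I n) ℂ)‖ = ‖tn a e - c‖ := by rw [norm_one, mul_one]
    _ ≤ ε := hε e

end Run7.h973.RV
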