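import Pool.Agent.Run7.h745.RV.Iface
import Pool.Agent.Run7.h973.AH.SIMPLE

/-!
Project RV of helper745: the families `V_c = v_c unit p r0` which relate the row `p` to the first row.
-/

set_option autoImplicit false
set_option linter.unusedSectionVars false

noncomputable section

namespace Run7.h973.RV

open Filter Topology Matrix Pool.Agent.H188R3 Pool.Agent.Helper133.BT Pool.Agent.Helper133.BU
open Run7.h745 Run7.h745.RV

lemma at_sum {n : ℕ} {ι : Type*} (s : Finset ι) (f : ι → A n) (e : E) :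
    (∑ c ∈ s, f c).at e = ∑ c ∈ s, (f c).at e := by
  have h := map_sum (evA n e) f s
  exact h

lemma sum_sq_pos {m : ℕ} (x : K m) : 0 < ∑ d, (x.1 d) ^ 2 := by
  have h1 : ∑ d, |x.1 d| = 1 := x.2
  by_contra hcon
  have h2 : ∑ d, (x.1 d) ^ 2 = 0 := le_antisymm (not_lt.1 hcon) (Finset.sum_nonneg fun _ _ => sq_nonneg _)
  rw [Finset.sum_eq_zero_iff_of_nonneg (fun _ _ => sq_nonneg _)] at h2
  have h3 : ∑ d, |x.1 d| = 0 := by
    refine Finset.sum_eq_zero fun d _ => ?_
    rw [abs_eq_zero]
    exact pow_eq_zero_iff (two_ne_zero) |>.1 (h2 d (Finset.mem_univ d))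
  rw [h3] at h1
  exact zero_ne_one h1

/-- the family for the row `p` -/
theorem exists_fam (n : ℕ) (p : I n) : ∃ (k : ℕ) (v : Fin k → E → ℝ) (V : Fin k → A n),
    (∀ c e, (V c).at e = ((v c e : ℝ) : ℂ) • MA.unit p (r0 n)) ∧ ∀ e, ∑ c, v c e ^ 2 = 1 := by
  rcases hl : lab n p with _ | i
  · have hp := lab_eq_zero hl
    refine ⟨1, fun _ _ => 1, fun _ => e0 n, fun c e => ?_, fun e => by simp⟩
    rw [hp, Complex.ofReal_one, one_smul]
    rfl
  · have hin : i < n := by
      have := lab_le p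
      omega
    obtain ⟨w, hw⟩ : ∃ w : Fin (dm i + 1) → E → ℝ, w = fun c e =>
      (e.2 i).1 c / Real.sqrt (∑ d, ((e.2 i).1 d) ^ 2) := ⟨_, rfl⟩
    have hc1 : ∀ c, Continuous fun e : E => (e.2 i).1 c := fun c =>
      (continuous_apply c).comp (continuous_subtype_val.comp ((continuous_apply i).comp continuous_snd))
    have hpos : ∀ e : E, 0 < Real.sqrt (∑ d, ((e.2 i).1 d) ^ 2) := fun e =>
      Real.sqrt_pos.2 (sum_sq_pos (e.2 i))
    have hcont : ∀ c, Continuous (w c) := by
      intro c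
      rw [hw]
      refine (hc1 c).div (Real.continuous_sqrt.comp (continuous_finsetSum _ fun d _ => (hc1 d).pow 2))
        fun e => (hpos e).ne'
    have hdep : ∀ c (h : Bool) (ω ω' : Ω), (∀ i < n, ω i = ω' i) → w c (h, ω) = w c (h, ω') := by
      intro c h ω ω' hω
      rw [hw]
      show (ω i).1 c / Real.sqrt (∑ d, ((ω i).1 d) ^ 2) = (ω' i).1 c / Real.sqrt (∑ d, ((ω' i).1 d) ^ 2)
      rw [hω i hin]
    have hpar : ∀ c (h : Bool) (j : ℕ) (ω : Ω), w c (h, fl j ω) = if i = j then -w c (h, ω) else w c (h, ω) := by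
      intro c h j ω
      rw [hw]
      show (fl j ω i).1 c / Real.sqrt (∑ d, ((fl j ω i).1 d) ^ 2) = if i = j then
        -((ω i).1 c / Real.sqrt (∑ d, ((ω i).1 d) ^ 2)) else (ω i).1 c / Real.sqrt (∑ d, ((ω i).1 d) ^ 2)
      by_cases hij : i = j
      · subst hij
        have h9 : ∀ d, ((-(ω i).1) d) ^ 2 = ((ω i).1 d) ^ 2 := fun d => by rw [Pi.neg_apply, neg_sq]
        rw [if_pos rfl, fl_self, Finset.sum_congr rfl fun d _ => h9 d, Pi.neg_apply, neg_div]
      · rw [if_neg hij, fl_ne hij]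
    refine ⟨dm i + 1, w, fun c => A.mk ⟨fun e => ((w c e : ℝ) : ℂ) • MA.unit p (r0 n),
      (Complex.continuous_ofReal.comp (hcont c)).smul continuous_const⟩
      (fun h ω ω' hω => by
        show ((w c (h, ω) : ℝ) : ℂ) • MA.unit p (r0 n) = ((w c (h, ω') : ℝ) : ℂ) • MA.unit p (r0 n)
        rw [hdep c h ω ω' hω])
      (fun h j ω a b => by
        show (((w c (h, fl j ω) : ℝ) : ℂ) • MA.unit p (r0 n)).en a b =
          Run7.h745.RV.sg j a * Run7.h745.RV.sg j b * (((w c (h, ω) : ℝ) : ℂ) • MA.unit p (r0 n)).en a b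
        rw [MA.en_smul, MA.en_smul, MA.en_unit]
        by_cases hab : a = p ∧ b = r0 n
        · rw [if_pos hab, hab.1, hab.2, hpar]
          have h1 : Run7.h745.RV.sg j (r0 n) = 1 := by
            unfold Run7.h745.RV.sg
            rw [lab_r0, if_neg (by omega)]
          have h2 : Run7.h745.RV.sg j p = if i = j then -1 else 1 := by
            unfold Run7.h745.RV.sg
            rw [hl]
            by_cases hij : i = j
            · rw [if_pos (by omega), if_pos hij]
            · rw [if_neg (by omega), if_neg hij]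
          rw [h1, h2]
          split_ifs with hij
          · push_cast
            simp only [smul_eq_mul]
            ring
          · simp only [smul_eq_mul]
            ring
        · rw [if_neg hab, smul_zero, smul_zero, mul_zero]), fun c e => rfl, fun e => ?_⟩
    rw [hw]
    show ∑ c, ((e.2 i).1 c / Real.sqrt (∑ d, ((e.2 i).1 d) ^ 2)) ^ 2 = 1
    simp only [div_pow]
    rw [← Finset.sum_div, Real.sq_sqrt (sum_sq_pos (e.2 i)).le, div_self (sum_sq_pos (e.2 i)).ne']

end Run7.h973.RV
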